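import Pool.Agent.helper75.P2.MAN_C

set_option autoImplicit false

/-!
# Project P2, row MAN, part D: the functional `A_n` and the random recursion
-/

open scoped ContDiff Topology
open MeasureTheory Filter Set Metric MvPolynomial Pool.Agent.helper37.QA

namespace Pool.Agent.P2

/-- the constants and estimates used in row MAN -/
structure MAN_K {d : ℕ} (f : Endo 2 d) (U : Set (PP 2)) (r CP CE CD C1 : ℝ) : Prop where
  hd : 2 ≤ d
  good : Good0 f U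
  r0 : 0 < r
  cp : 1 ≤ CP
  ce : 1 ≤ CE
  cd : 0 < CD
  c1 : 1 ≤ C1
  psc : ∀ (n : ℕ) (Λ : ℝ), 0 ≤ Λ → Adm f U n (Psc f n Λ) (CP * (n + 1) + Λ) ∧
    (∀ Z ∈ cone U, Psc f n Λ Z ≤ CP * (n + 1) ∧ Psc f (n + 1) Λ Z ≤ Psc f n Λ (It f 1 Z) + CP)
  ent : ∀ (n : ℕ) (Λ : ℝ) (Z : ℂ → E3), 0 ≤ Λ → Dsc U Z → CE ≤ mass f n Z → -CE ≤ Jf f n (Psc f n Λ) Z
  dms1 : ∀ (N : ℕ) (Z : ℂ → E3) (A : M3), Dsc (f.map '' closure U) Z → Near r A →
    |mass f N (fun z => mv A (Z z)) - mass f N Z| ≤ CD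
  dms4 : ∀ (N : ℕ) (Z : ℂ → E3), Dsc U Z → Dsc (f.map '' U) (fun z => It f 1 (Z z)) ∧
      mass f N (fun z => It f 1 (Z z)) = d * mass f (N + 1) Z ∧
      ∀ Ψ : E3 → ℝ, Jf f N Ψ (fun z => It f 1 (Z z)) = Jf f (N + 1) (fun Y => Ψ (It f 1 Y)) Z
  rie : ∀ (N : ℕ) (Ψ : E3 → ℝ) (B : ℝ) (Z : ℂ → E3), Adm f U N Ψ B → 1 ≤ B → Dsc (f.map '' closure U) Z → C1 ≤ mass f N Z →
      (Jf f N Ψ Z ≤ (∫ A, rho (r / 8) A * Jf f N Ψ (fun z => mv A (Z z))) + C1 * B * (mass f N Z) ^ (-(1 / 2) : ℝ)) ∧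
      (∀ b : ℝ, (∀ A, Near r A → Jf f N Ψ (fun z => mv A (Z z)) ≤ b) →
        ENNReal.ofReal (mass f N Z)⁻¹ * Occ (r / 64) (fun Y => ENNReal.ofReal (eh f N Ψ Y)) Z ≤
          ENNReal.ofReal (C1 * (b - Jf f N Ψ Z + B * (mass f N Z) ^ (-(1 / 2) : ℝ))))
  rad : ∀ (A : M3) (Z : ℂ → E3), Near r A → Dsc (f.map '' closure U) Z → Dsc U (fun z => mv A (Z z))
  big : ∀ (n : ℕ) (M : ℝ), ∃ W : ℂ → E3, Dsc U W ∧ M ≤ mass f n W

/-- `b` bounds the averages over discs of mass at least `M` -/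
def MAN_UB {d : ℕ} (f : Endo 2 d) (U : Set (PP 2)) (n : ℕ) (Λ M b : ℝ) : Prop :=
  ∀ W : ℂ → E3, Dsc U W → M ≤ mass f n W → Jf f n (Psc f n Λ) W ≤ b

theorem MAN_dsc_mono {U V : Set (PP 2)} (h : U ⊆ V) {Z : ℂ → E3} (hZ : Dsc U Z) : Dsc V Z := by
  refine ⟨hZ.1, fun z hz => ?_⟩
  obtain ⟨h1, h2⟩ := hZ.2 z hz
  exact ⟨h1, h h2⟩

section
variable {d : ℕ} {f : Endo 2 d} {U : Set (PP 2)} {r CP CE CD C1 : ℝ}

theorem MAN_img (K : MAN_K f U r CP CE CD C1) : f.map '' U ⊆ U := by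
  refine Subset.trans ?_ K.good.1.2.2
  exact image_mono subset_closure

theorem MAN_psc_cont (K : MAN_K f U r CP CE CD C1) (n : ℕ) {Λ : ℝ} (hΛ : 0 ≤ Λ) : ContinuousOn (Psc f n Λ) (cone U) :=
  ((K.psc n Λ hΛ).1.1).continuousOn

theorem MAN_comp_cont (K : MAN_K f U r CP CE CD C1) (n : ℕ) {Λ : ℝ} (hΛ : 0 ≤ Λ) :
    ContinuousOn (fun Y => Psc f n Λ (It f 1 Y)) (cone U) :=
  (MAN_psc_cont K n hΛ).comp (MAN_It_cont f 1).continuousOn fun _ hZ => MAN_cone K.good.1 hZ 1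

theorem MAN_J_step (K : MAN_K f U r CP CE CD C1) (n : ℕ) {Λ : ℝ} (hΛ : 0 ≤ Λ) {W : ℂ → E3} (hW : Dsc U W)
    (hm : 0 < mass f (n + 1) W) :
    Jf f (n + 1) (Psc f (n + 1) Λ) W ≤ Jf f n (Psc f n Λ) (fun z => It f 1 (W z)) + CP := by
  rw [(K.dms4 n W hW).2.2]
  exact MAN_J_mono K.good (n + 1) _ _ CP (MAN_psc_cont K (n + 1) hΛ) (MAN_comp_cont K n hΛ)
    (fun Z hZ => ((K.psc n Λ hΛ).2 Z hZ).2) W hW hm

theorem MAN_UB_step (K : MAN_K f U r CP CE CD C1) {n : ℕ} {Λ M b : ℝ} (hΛ : 0 ≤ Λ) (hM : 1 ≤ M)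
    (h : MAN_UB f U n Λ M b) : MAN_UB f U (n + 1) Λ M (b + CP) := by
  intro W hW hm
  have hpos : 0 < mass f (n + 1) W := by linarith
  have h1 := MAN_J_step K n hΛ hW hpos
  obtain ⟨h2, h3, -⟩ := K.dms4 n W hW
  have h4 : Dsc U (fun z => It f 1 (W z)) := MAN_dsc_mono (MAN_img K) h2
  have h5 : M ≤ mass f n (fun z => It f 1 (W z)) := by
    rw [h3]
    have h6 : (1 : ℝ) ≤ d := by exact_mod_cast (by have := K.hd; omega : 1 ≤ d)
    nlinarith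
  have := h _ h4 h5
  linarith

theorem MAN_UB_steps (K : MAN_K f U r CP CE CD C1) {n : ℕ} {Λ M b : ℝ} (hΛ : 0 ≤ Λ) (hM : 1 ≤ M)
    (h : MAN_UB f U n Λ M b) (j : ℕ) : MAN_UB f U (n + j) Λ M (b + j * CP) := by
  induction j with
  | zero => simpa using h
  | succ j ih =>
    have h1 := MAN_UB_step K hΛ hM ih
    rw [Nat.cast_succ, show b + ((j : ℝ) + 1) * CP = b + j * CP + CP by ring, ← add_assoc]
    exact h1

theorem MAN_psc_mono (f : Endo 2 d) (n : ℕ) {Λ Λ' : ℝ} (h : Λ ≤ Λ') (Z : E3) : Psc f n Λ' Z ≤ Psc f n Λ Z := by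
  unfold Psc
  have h0 : ∀ v : E3, 0 ≤ nq v := fun v => Finset.sum_nonneg fun i _ => Complex.normSq_nonneg _
  have h1 : 0 ≤ nq (cv f n Z) * nq Z / pq (It f n Z) ^ 2 := by
    have := h0 (cv f n Z)
    have := h0 Z
    positivity
  have h2 : Real.exp (-2 * Λ') ≤ Real.exp (-2 * Λ) := Real.exp_le_exp.2 (by linarith)
  have h3 := Real.exp_pos (-2 * Λ')
  have h4 := Real.log_le_log (by linarith : 0 < nq (cv f n Z) * nq Z / pq (It f n Z) ^ 2 + Real.exp (-2 * Λ'))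
    (by linarith : nq (cv f n Z) * nq Z / pq (It f n Z) ^ 2 + Real.exp (-2 * Λ') ≤
      nq (cv f n Z) * nq Z / pq (It f n Z) ^ 2 + Real.exp (-2 * Λ))
  linarith

theorem MAN_UB_mono (K : MAN_K f U r CP CE CD C1) {n : ℕ} {Λ Λ' M M' b : ℝ} (hΛ : 0 ≤ Λ) (hΛ' : Λ ≤ Λ') (hM : 1 ≤ M)
    (hM' : M ≤ M') (h : MAN_UB f U n Λ M b) : MAN_UB f U n Λ' M' b := by
  intro W hW hm
  have h1 := MAN_J_mono K.good n (Psc f n Λ') (Psc f n Λ) 0 (MAN_psc_cont K n (hΛ.trans hΛ')) (MAN_psc_cont K n hΛ)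
    (fun Z _ => by rw [add_zero]; exact MAN_psc_mono f n hΛ' Z) W hW (by linarith)
  have h2 := h W hW (hM'.trans hm)
  linarith

/-- the set of the asymptotic upper bounds -/
def MAN_S {d : ℕ} (f : Endo 2 d) (U : Set (PP 2)) (n : ℕ) : Set ℝ := {b | ∃ Λ M : ℝ, 0 ≤ Λ ∧ 1 ≤ M ∧ MAN_UB f U n Λ M b}

/-- the functional `A_n` -/
noncomputable def MAN_Af {d : ℕ} (f : Endo 2 d) (U : Set (PP 2)) (n : ℕ) : ℝ := sInf (MAN_S f U n)

theorem MAN_S_mem (K : MAN_K f U r CP CE CD C1) (n : ℕ) : CP * (n + 1) ∈ MAN_S f U n := by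
  refine ⟨0, 1, le_rfl, le_rfl, fun W hW hm => ?_⟩
  have hpos : 0 < mass f n W := by linarith
  have h1 := MAN_J_mono K.good n (Psc f n 0) (fun _ => CP * (n + 1)) 0 (MAN_psc_cont K n le_rfl) continuousOn_const
    (fun Z hZ => by rw [add_zero]; exact ((K.psc n 0 le_rfl).2 Z hZ).1) W hW hpos
  rwa [MAN_J_const f n _ W hpos, add_zero] at h1

theorem MAN_S_lb (K : MAN_K f U r CP CE CD C1) (n : ℕ) {b : ℝ} (hb : b ∈ MAN_S f U n) : -CE ≤ b := by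
  obtain ⟨Λ, M, hΛ, hM, h⟩ := hb
  obtain ⟨W, hW, hm⟩ := K.big n (max M CE)
  exact (K.ent n Λ W hΛ hW ((le_max_right _ _).trans hm)).trans (h W hW ((le_max_left _ _).trans hm))

theorem MAN_S_bdd (K : MAN_K f U r CP CE CD C1) (n : ℕ) : BddBelow (MAN_S f U n) :=
  ⟨-CE, fun _ hb => MAN_S_lb K n hb⟩

theorem MAN_A_lb (K : MAN_K f U r CP CE CD C1) (n : ℕ) : -CE ≤ MAN_Af f U n :=
  le_csInf ⟨_, MAN_S_mem K n⟩ fun _ hb => MAN_S_lb K n hb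

theorem MAN_A_ub (K : MAN_K f U r CP CE CD C1) (n : ℕ) : MAN_Af f U n ≤ CP * (n + 1) :=
  csInf_le (MAN_S_bdd K n) (MAN_S_mem K n)

theorem MAN_A_step (K : MAN_K f U r CP CE CD C1) (n : ℕ) : MAN_Af f U (n + 1) ≤ MAN_Af f U n + CP := by
  have h1 : MAN_Af f U (n + 1) - CP ≤ MAN_Af f U n := by
    refine le_csInf ⟨_, MAN_S_mem K n⟩ fun b hb => ?_
    obtain ⟨Λ, M, hΛ, hM, h⟩ := hb
    have h2 : b + CP ∈ MAN_S f U (n + 1) := ⟨Λ, M, hΛ, hM, MAN_UB_step K hΛ hM h⟩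
    have := csInf_le (MAN_S_bdd K (n + 1)) h2
    unfold MAN_Af
    linarith
  linarith

theorem MAN_A_near (K : MAN_K f U r CP CE CD C1) (n : ℕ) : ∃ Λ M : ℝ, 0 ≤ Λ ∧ 1 ≤ M ∧ MAN_UB f U n Λ M (MAN_Af f U n + 1) := by
  obtain ⟨b, hb, hlt⟩ := exists_lt_of_csInf_lt ⟨_, MAN_S_mem K n⟩ (by
    change sInf (MAN_S f U n) < MAN_Af f U n + 1
    exact lt_add_one _)
  obtain ⟨Λ, M, hΛ, hM, h⟩ := hb
  exact ⟨Λ, M, hΛ, hM, fun W hW hm => (h W hW hm).trans hlt.le⟩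

theorem MAN_A_disc (K : MAN_K f U r CP CE CD C1) (n : ℕ) {Λ M : ℝ} (hΛ : 0 ≤ Λ) (hM : 1 ≤ M) :
    ∃ W : ℂ → E3, Dsc U W ∧ M ≤ mass f n W ∧ MAN_Af f U n - 1 < Jf f n (Psc f n Λ) W := by
  by_contra hcon
  push Not at hcon
  have h1 : MAN_Af f U n - 1 ∈ MAN_S f U n := ⟨Λ, M, hΛ, hM, hcon⟩
  have := csInf_le (MAN_S_bdd K n) h1
  unfold MAN_Af at this
  linarith

theorem MAN_J_bd (K : MAN_K f U r CP CE CD C1) {N : ℕ} {Ψ : E3 → ℝ} {B : ℝ} (hA : Adm f U N Ψ B) {W : ℂ → E3} (hW : Dsc U W)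
    (hpos : 0 < mass f N W) : |Jf f N Ψ W| ≤ B := by
  rw [abs_le]
  constructor
  · have h1 := MAN_J_mono K.good N (fun _ => -B) Ψ 0 continuousOn_const hA.1.continuousOn
      (fun Z hZ => by rw [add_zero]; exact (abs_le.1 (hA.2.1 Z hZ)).1) W hW hpos
    rwa [MAN_J_const f N _ W hpos, add_zero] at h1
  · have h1 := MAN_J_mono K.good N Ψ (fun _ => B) 0 hA.1.continuousOn continuousOn_const
      (fun Z hZ => by rw [add_zero]; exact (abs_le.1 (hA.2.1 Z hZ)).2) W hW hpos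
    rwa [MAN_J_const f N _ W hpos, add_zero] at h1

theorem MAN_J_cont (K : MAN_K f U r CP CE CD C1) {N : ℕ} {Ψ : E3 → ℝ} {B : ℝ} (hA : Adm f U N Ψ B) {Z : ℂ → E3}
    (hZ : Dsc (f.map '' closure U) Z) (hm : CD < mass f N Z) :
    ContinuousOn (fun A : M3 => Jf f N Ψ (fun z => mv A (Z z))) {A | Near r A} := by
  have hS : ∀ A ∈ {A : M3 | Near r A}, ∀ z ∈ ball (0 : ℂ) 1, mv A (Z z) ∈ cone U := fun A hA z hz =>
    (K.rad A Z hA hZ).2 z hz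
  have h1 := MAN_int_cont K.good N Ψ hA.1.continuousOn Z hZ.1 _ hS
  have h2 := MAN_mass_cont K.good N Z hZ.1 _ hS
  refine h1.div h2 fun A hA => ?_
  have h3 := (abs_le.1 (K.dms1 N Z A hZ hA)).1
  linarith

theorem MAN_int (K : MAN_K f U r CP CE CD C1) {N : ℕ} {Ψ : E3 → ℝ} {B : ℝ} (hA : Adm f U N Ψ B) {Z : ℂ → E3}
    (hZ : Dsc (f.map '' closure U) Z) (hm : CD < mass f N Z) :
    Integrable (fun A : M3 => rho (r / 8) A * Jf f N Ψ (fun z => mv A (Z z))) := by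
  have hr := K.r0
  have hr8 : 0 < r / 8 := by linarith
  have hopen := MAN_near_open r
  have hsupp : Function.support (fun A : M3 => rho (r / 8) A * Jf f N Ψ (fun z => mv A (Z z))) ⊆ {A | Near r A} := by
    intro A hA
    have h1 : rho (r / 8) A ≠ 0 := fun h => hA (by change rho (r / 8) A * _ = 0; rw [h, zero_mul])
    exact MAN_near_mono (by linarith) (MAN_rho_supp hr8 h1)
  rw [← integrableOn_iff_integrable_of_support_subset hsupp]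
  have hmeas : AEStronglyMeasurable (fun A : M3 => rho (r / 8) A * Jf f N Ψ (fun z => mv A (Z z)))
      (volume.restrict {A | Near r A}) :=
    ((MAN_rho_cont (r / 8)).continuousOn.mul (MAN_J_cont K hA hZ hm)).aestronglyMeasurable hopen.measurableSet
  refine Integrable.mono' (((MAN_rho_integrable hr8).const_mul B).integrableOn) hmeas ?_
  refine (ae_restrict_iff' hopen.measurableSet).2 (Eventually.of_forall fun A hA' => ?_)
  have h3 := (abs_le.1 (K.dms1 N Z A hZ hA')).1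
  have h4 := MAN_J_bd K hA (K.rad A Z hA' hZ) (by linarith)
  rw [Real.norm_eq_abs, abs_mul, abs_of_nonneg (MAN_rho_nonneg _ A), mul_comm]
  exact mul_le_mul_of_nonneg_right h4 (MAN_rho_nonneg _ A)

theorem MAN_R0 (K : MAN_K f U r CP CE CD C1) {N : ℕ} {Ψ : E3 → ℝ} {B : ℝ} (hA : Adm f U N Ψ B) (hB : 1 ≤ B) {Z : ℂ → E3}
    (hZ : Dsc (f.map '' closure U) Z) (hm : CD < mass f N Z) (hm1 : C1 ≤ mass f N Z) {k β : ℝ} (hk : 0 ≤ k)
    (hβ : ∀ A, Near r A → Jf f N Ψ (fun z => mv A (Z z)) ≤ β) :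
    ∫⁻ A, ENNReal.ofReal (rho (r / 8) A) * ENNReal.ofReal (k * (β - Jf f N Ψ (fun z => mv A (Z z)))) ≤
      ENNReal.ofReal (k * (β - Jf f N Ψ Z + C1 * B * (mass f N Z) ^ (-(1 / 2) : ℝ))) := by
  have hr := K.r0
  have hr8 : 0 < r / 8 := by linarith
  have h1 : ∀ A : M3, ENNReal.ofReal (rho (r / 8) A) * ENNReal.ofReal (k * (β - Jf f N Ψ (fun z => mv A (Z z)))) =
      ENNReal.ofReal (k * β * rho (r / 8) A - k * (rho (r / 8) A * Jf f N Ψ (fun z => mv A (Z z)))) := by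
    intro A
    rw [← ENNReal.ofReal_mul (MAN_rho_nonneg _ A)]
    congr 1
    ring
  have h2 : 0 ≤ fun A : M3 => k * β * rho (r / 8) A - k * (rho (r / 8) A * Jf f N Ψ (fun z => mv A (Z z))) := by
    intro A
    change 0 ≤ k * β * rho (r / 8) A - k * (rho (r / 8) A * Jf f N Ψ (fun z => mv A (Z z)))
    by_cases h : rho (r / 8) A = 0
    · rw [h]
      simp
    · have h3 := hβ A (MAN_near_mono (by linarith) (MAN_rho_supp hr8 h))
      have h4 := MAN_rho_nonneg (r / 8) A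
      have h5 : 0 ≤ k * (rho (r / 8) A * (β - Jf f N Ψ (fun z => mv A (Z z)))) :=
        mul_nonneg hk (mul_nonneg h4 (by linarith))
      linarith
  have h3 : Integrable (fun A : M3 => k * β * rho (r / 8) A - k * (rho (r / 8) A * Jf f N Ψ (fun z => mv A (Z z)))) :=
    ((MAN_rho_integrable hr8).const_mul _).sub ((MAN_int K hA hZ hm).const_mul k)
  rw [lintegral_congr h1, ← ofReal_integral_eq_lintegral_ofReal h3 (Eventually.of_forall h2)]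
  refine ENNReal.ofReal_le_ofReal ?_
  rw [integral_sub ((MAN_rho_integrable hr8).const_mul _) ((MAN_int K hA hZ hm).const_mul k), integral_const_mul,
    integral_const_mul, MAN_rho_int hr8, mul_one]
  have h4 := (K.rie N Ψ B Z hA hB hZ hm1).1
  have h5 := mul_le_mul_of_nonneg_left h4 hk
  linarith

end

end Pool.Agent.P2
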