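import Pool.Agent.helper75.P2.MAN_B
import Pool.Agent.helper43.P2.CHN

set_option autoImplicit false

/-!
# Project P2, row MAN, part C: the energy density is homogeneous and measurable on the cone
-/

open scoped ContDiff Topology
open MeasureTheory Filter Set Metric MvPolynomial Pool.Agent.helper37.QA

namespace Pool.Agent.P2

theorem MAN_lap_congr {g g' : ℂ → ℝ} {z : ℂ} (h : g =ᶠ[𝓝 z] g') : lap g z = lap g' z := by
  unfold lap
  rw [(h.iteratedFDeriv ℝ 2).eq_of_nhds]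

theorem MAN_lev_smul {Ψ : E3 → ℝ} {Z a : E3} (hΨ : ContDiffAt ℝ 2 Ψ Z) (ν : ℂ) :
    lev Ψ Z (ν • a) = Complex.normSq ν * lev Ψ Z a := by
  rw [CHN_lev Ψ Z _ hΨ, CHN_lev Ψ Z _ hΨ]
  obtain ⟨B, hB⟩ : ∃ B : E3 →L[ℝ] E3 →L[ℝ] ℝ, B = fderiv ℝ (fderiv ℝ Ψ) Z := ⟨_, rfl⟩
  rw [← hB]
  have h1 : ν • a = ν.re • a + ν.im • (Complex.I • a) := by
    conv_lhs => rw [← Complex.re_add_im ν]
    rw [add_smul, mul_smul]
    rfl
  have h2 : Complex.I • ν • a = ν.re • (Complex.I • a) - ν.im • a := by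
    rw [h1, smul_add, smul_comm Complex.I (ν.re) a, smul_comm Complex.I (ν.im) (Complex.I • a), smul_smul Complex.I Complex.I,
      Complex.I_mul_I, neg_smul, one_smul, smul_neg]
    rfl
  rw [h2, h1]
  simp only [map_add, map_sub, map_smul, add_apply, sub_apply,
    smul_apply, smul_eq_mul]
  rw [Complex.normSq_apply]
  ring

theorem MAN_fd_smul {d : ℕ} (f : Endo 2 d) (N : ℕ) (i : Fin 3) (Z X : E3) {c : ℂ} (hc : c ≠ 0) :
    fderiv ℂ (fun W => It f N W i) (c • Z) X = c ^ d ^ N / c * fderiv ℂ (fun W => It f N W i) Z X := by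
  have hdiff : Differentiable ℂ (fun W : E3 => It f N W i) := (MAN_It_cd (k := 1) f N i).differentiable (by norm_num)
  have h1 : HasFDerivAt (fun W : E3 => It f N (c • W) i)
      ((fderiv ℂ (fun W => It f N W i) (c • Z)).comp (c • ContinuousLinearMap.id ℂ E3)) Z :=
    (hdiff (c • Z)).hasFDerivAt.comp Z ((hasFDerivAt_id Z).const_smul c)
  have h2 : (fun W : E3 => It f N (c • W) i) = fun W => c ^ d ^ N * It f N W i := by
    funext W
    have h3 : It f N (c • W) = c ^ d ^ N • It f N W := pmap_smul (iter_hom f.hom N) c W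
    rw [h3]
    rfl
  rw [h2] at h1
  have h3 : HasFDerivAt (fun W : E3 => c ^ d ^ N * It f N W i) (c ^ d ^ N • fderiv ℂ (fun W => It f N W i) Z) Z :=
    (hdiff Z).hasFDerivAt.const_mul (c ^ d ^ N)
  have h4 := congrArg (fun L : E3 →L[ℂ] ℂ => L X) (h1.unique h3)
  simp only [ContinuousLinearMap.comp_apply, smul_apply, ContinuousLinearMap.id_apply, map_smul,
    smul_eq_mul] at h4
  field_simp
  linear_combination h4

theorem MAN_cc_smul {d : ℕ} (f : Endo 2 d) (N : ℕ) (Z X : E3) {c : ℂ} (hc : c ≠ 0) :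
    cc f N (c • Z) X = c ^ d ^ N * (c ^ d ^ N / c) * cc f N Z X := by
  unfold cc
  have h3 : It f N (c • Z) = c ^ d ^ N • It f N Z := pmap_smul (iter_hom f.hom N) c Z
  rw [MAN_fd_smul f N 0 Z X hc, MAN_fd_smul f N 1 Z X hc, h3]
  simp only [Pi.smul_apply, smul_eq_mul]
  ring

theorem MAN_pq_smul {d : ℕ} (f : Endo 2 d) (N : ℕ) (Z : E3) (c : ℂ) :
    pq (It f N (c • Z)) = Complex.normSq (c ^ d ^ N) * pq (It f N Z) := by
  have h3 : It f N (c • Z) = c ^ d ^ N • It f N Z := pmap_smul (iter_hom f.hom N) c Z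
  rw [h3]
  unfold pq
  simp only [Pi.smul_apply, smul_eq_mul, Complex.normSq_mul]
  ring

theorem MAN_nq_smul (Z : E3) (c : ℂ) : nq (c • Z) = Complex.normSq c * nq Z := by
  unfold nq
  rw [Finset.mul_sum]
  refine Finset.sum_congr rfl fun i _ => ?_
  rw [Pi.smul_apply, smul_eq_mul, Complex.normSq_mul]

theorem MAN_nq_pos {Z : E3} (hZ : Z ≠ 0) : 0 < nq Z := by
  obtain ⟨i, hi⟩ := Function.ne_iff.1 hZ
  have h1 : 0 < Complex.normSq (Z i) := Complex.normSq_pos.2 hi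
  have h2 : Complex.normSq (Z i) ≤ nq Z :=
    Finset.single_le_sum (f := fun j => Complex.normSq (Z j)) (fun j _ => Complex.normSq_nonneg _) (Finset.mem_univ i)
  linarith

theorem MAN_en_smul {d : ℕ} {f : Endo 2 d} {U : Set (PP 2)} (hG : Good0 f U) (N : ℕ) {Ψ : E3 → ℝ} {B : ℝ} (hA : Adm f U N Ψ B)
    {Z : E3} (hZ : Z ∈ cone U) (X Y : E3) {c : ℂ} (hc : c ≠ 0) :
    en f N Ψ (c • Z) X Y = (Complex.normSq c ^ 2)⁻¹ * en f N Ψ Z X Y := by
  have hopen := cone_open hG.1.1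
  have hcd : ∀ Z ∈ cone U, ContDiffAt ℝ 2 Ψ Z := fun Z hZ =>
    ((hA.1.contDiffAt (hopen.mem_nhds hZ)).of_le ENat.LEInfty.out)
  obtain ⟨a, ha⟩ : ∃ a : E3, a = cc f N Z X • Y - cc f N Z Y • X := ⟨_, rfl⟩
  obtain ⟨μ, hμ⟩ : ∃ μ : ℂ, μ = c ^ d ^ N * (c ^ d ^ N / c) := ⟨_, rfl⟩
  have h1 : cc f N (c • Z) X • Y - cc f N (c • Z) Y • X = μ • a := by
    rw [MAN_cc_smul f N Z X hc, MAN_cc_smul f N Z Y hc, ← hμ, ha, smul_sub, smul_smul, smul_smul]
  have h2 : lev Ψ (c • Z) (μ • a) = lev Ψ Z ((μ / c) • a) := by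
    unfold lev
    apply MAN_lap_congr
    have hcont : ContinuousAt (fun t : ℂ => Z + t • ((μ / c) • a)) 0 := by fun_prop
    have hmem : ∀ᶠ t in 𝓝 (0 : ℂ), Z + t • ((μ / c) • a) ∈ cone U := by
      have h0 : (fun t : ℂ => Z + t • ((μ / c) • a)) 0 = Z := by simp
      exact hcont.eventually (by rw [h0]; exact hopen.mem_nhds hZ)
    filter_upwards [hmem] with t ht
    rw [← hA.2.2.1 _ ht c hc, smul_add, smul_comm c t, smul_smul c, mul_div_cancel₀ _ hc]
  have hc2 : Complex.normSq c ≠ 0 := by rwa [Ne, Complex.normSq_eq_zero]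
  have hcD : Complex.normSq (c ^ d ^ N) ≠ 0 := by
    rw [Ne, Complex.normSq_eq_zero]
    exact pow_ne_zero _ hc
  unfold en
  rw [h1, h2, MAN_lev_smul (hcd Z hZ), MAN_pq_smul, ← ha, hμ]
  rw [Complex.normSq_div, Complex.normSq_mul, Complex.normSq_div]
  have hpq := (MAN_pq_pos hG hZ N).ne'
  generalize lev Ψ Z a = x at *
  generalize Complex.normSq (c ^ d ^ N) = y at *
  generalize Complex.normSq c = w at *
  generalize pq (It f N Z) = q at *
  generalize (d : ℝ) ^ N = e at *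
  rcases eq_or_ne e 0 with he | he
  · rw [he]
    simp
  · field_simp

theorem MAN_eh_smul {d : ℕ} {f : Endo 2 d} {U : Set (PP 2)} (hG : Good0 f U) (N : ℕ) {Ψ : E3 → ℝ} {B : ℝ} (hA : Adm f U N Ψ B)
    {Z : E3} (hZ : Z ∈ cone U) {c : ℂ} (hc : c ≠ 0) : eh f N Ψ (c • Z) = eh f N Ψ Z := by
  have hc2 : Complex.normSq c ≠ 0 := by rwa [Ne, Complex.normSq_eq_zero]
  have hn : nq Z ≠ 0 := by
    obtain ⟨h, -⟩ := hZ
    exact (MAN_nq_pos h).ne'
  unfold eh ed
  rw [MAN_en_smul hG N hA hZ _ _ hc, MAN_en_smul hG N hA hZ _ _ hc, MAN_en_smul hG N hA hZ _ _ hc, MAN_nq_smul]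
  generalize Complex.normSq c = w at *
  generalize nq Z = q at *
  field_simp

theorem MAN_nq_cont : Continuous (fun Z : E3 => nq Z) := by
  unfold nq
  refine continuous_finsetSum _ fun i _ => ?_
  exact Complex.continuous_normSq.comp (continuous_apply i)

attribute [local irreducible] cc It pq nq

theorem MAN_en_cont {d : ℕ} {f : Endo 2 d} {U : Set (PP 2)} (hG : Good0 f U) (N : ℕ) {Ψ : E3 → ℝ} {B : ℝ} (hA : Adm f U N Ψ B)
    (hd : d ≠ 0) (X Y : E3) : ContinuousOn (fun Z => en f N Ψ Z X Y) (cone U) := by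
  have hopen := cone_open hG.1.1
  have hcd : ∀ Z ∈ cone U, ContDiffAt ℝ 2 Ψ Z := fun Z hZ =>
    ((hA.1.contDiffAt (hopen.mem_nhds hZ)).of_le ENat.LEInfty.out)
  have hD1 : ContDiffOn ℝ 1 (fderiv ℝ Ψ) (cone U) :=
    ((hA.1.of_le (ENat.LEInfty.out : (2 : WithTop ℕ∞) ≤ ∞)).fderiv_of_isOpen hopen (by norm_num))
  have hD2 : ContinuousOn (fderiv ℝ (fderiv ℝ Ψ)) (cone U) := hD1.continuousOn_fderiv_of_isOpen hopen (by norm_num)
  have hcX : Continuous (fun Z : E3 => cc f N Z X) := (MAN_cc_cont f N).comp (by fun_prop : Continuous fun Z : E3 => (Z, X))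
  have hcY : Continuous (fun Z : E3 => cc f N Z Y) := (MAN_cc_cont f N).comp (by fun_prop : Continuous fun Z : E3 => (Z, Y))
  have ha : Continuous (fun Z : E3 => cc f N Z X • Y - cc f N Z Y • X) := (hcX.smul continuous_const).sub (hcY.smul continuous_const)
  have hIa : Continuous (fun Z : E3 => Complex.I • (cc f N Z X • Y - cc f N Z Y • X)) := ha.const_smul Complex.I
  have h1 := (hD2.clm_apply ha.continuousOn).clm_apply ha.continuousOn
  have h2 := (hD2.clm_apply hIa.continuousOn).clm_apply hIa.continuousOn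
  have h3 : ContinuousOn (fun Z => lev Ψ Z (cc f N Z X • Y - cc f N Z Y • X)) (cone U) := by
    refine ((continuousOn_const (c := (1 / 4 : ℝ))).mul (h1.add h2)).congr fun Z hZ => ?_
    exact CHN_lev Ψ Z _ (hcd Z hZ)
  have h4 : ContinuousOn (fun Z : E3 => 2 * (d : ℝ) ^ N * pq (It f N Z) ^ 2) (cone U) :=
    (continuous_const.mul ((MAN_pq_cont f N).pow 2)).continuousOn
  refine h3.div h4 fun Z hZ => ?_
  have h5 := MAN_pq_pos hG hZ N
  have h6 : (0 : ℝ) < d := by exact_mod_cast Nat.pos_of_ne_zero hd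
  positivity

theorem MAN_eh_cont {d : ℕ} {f : Endo 2 d} {U : Set (PP 2)} (hG : Good0 f U) (N : ℕ) {Ψ : E3 → ℝ} {B : ℝ} (hA : Adm f U N Ψ B)
    (hd : d ≠ 0) : ContinuousOn (fun Z => eh f N Ψ Z) (cone U) := by
  have h := MAN_en_cont hG N hA hd
  unfold eh ed
  refine (MAN_nq_cont.pow 3).continuousOn.mul ((((h _ _).add (h _ _)).add (h _ _)).div MAN_nq_cont.continuousOn fun Z hZ => ?_)
  obtain ⟨h, -⟩ := hZ
  exact (MAN_nq_pos h).ne'

/-- the truncated density -/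
noncomputable def MAN_h {d : ℕ} (f : Endo 2 d) (U : Set (PP 2)) (N : ℕ) (Ψ : E3 → ℝ) : E3 → ENNReal :=
  (cone U).indicator fun Y => ENNReal.ofReal (eh f N Ψ Y)

theorem MAN_h_meas {d : ℕ} {f : Endo 2 d} {U : Set (PP 2)} (hG : Good0 f U) (N : ℕ) {Ψ : E3 → ℝ} {B : ℝ} (hA : Adm f U N Ψ B)
    (hd : d ≠ 0) : Measurable (MAN_h f U N Ψ) := by
  classical
  unfold MAN_h
  rw [← Set.piecewise_eq_indicator]
  refine ContinuousOn.measurable_piecewise ?_ continuousOn_const (cone_open hG.1.1).measurableSet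
  exact ENNReal.continuous_ofReal.comp_continuousOn (MAN_eh_cont hG N hA hd)

theorem MAN_h_smul {d : ℕ} {f : Endo 2 d} {U : Set (PP 2)} (hG : Good0 f U) (N : ℕ) {Ψ : E3 → ℝ} {B : ℝ} (hA : Adm f U N Ψ B)
    (Y : E3) (c : ℂ) (hc : c ≠ 0) : MAN_h f U N Ψ (c • Y) = MAN_h f U N Ψ Y := by
  classical
  unfold MAN_h
  by_cases hY : Y ∈ cone U
  · rw [indicator_of_mem hY, indicator_of_mem (cone_smul hY hc), MAN_eh_smul hG N hA hY hc]
  · have hY' : c • Y ∉ cone U := by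
      intro h
      have := cone_smul h (inv_ne_zero hc)
      rw [smul_smul, inv_mul_cancel₀ hc, one_smul] at this
      exact hY this
    rw [indicator_of_notMem hY, indicator_of_notMem hY']

theorem MAN_h_le {d : ℕ} (f : Endo 2 d) (U : Set (PP 2)) (N : ℕ) (Ψ : E3 → ℝ) (Y : E3) :
    MAN_h f U N Ψ Y ≤ ENNReal.ofReal (eh f N Ψ Y) := indicator_le_self _ _ _

end Pool.Agent.P2
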