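import Pool.Agent.helper75.P2.MAN_D

set_option autoImplicit false

/-!
# Project P2, row MAN: the energy of the `n`-sheets near `K` is bounded for most `n`
-/

open scoped ContDiff Topology
open MeasureTheory Filter Set Metric MvPolynomial Pool.Agent.helper37.QA

namespace Pool.Agent.P2

section
variable {d : ℕ} {f : Endo 2 d} {U : Set (PP 2)} {r CP CE CD C1 : ℝ}

theorem MAN_occ_mono {r : ℝ} {h h' : E3 → ENNReal} (hh : ∀ Y, h Y ≤ h' Y) (Z : ℂ → E3) : Occ r h Z ≤ Occ r h' Z := by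
  unfold Occ
  refine lintegral_mono fun A => lintegral_mono fun z => ?_
  exact mul_le_mul_right (hh _) _

theorem MAN_rec (K : MAN_K f U r CP CE CD C1) (n N0 : ℕ) {Λ M0 Mb b : ℝ} (hΛ : 0 ≤ Λ) (hM0 : 1 ≤ M0)
    (hUB : MAN_UB f U n Λ M0 b) (hMb1 : M0 + CD ≤ Mb) (hMb2 : C1 ≤ Mb) (hMb3 : 2 * CD < Mb)
    (hMb4 : ∀ j ≤ N0, C1 * (CP * ((n + j : ℕ) + 1) + Λ) * Mb ^ (-(1 / 2) : ℝ) ≤ 1) :
    ∀ j ≤ N0, ∀ Z : ℂ → E3, Dsc (f.map '' closure U) Z → Mb ≤ mass f (n + j) Z →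
      (stp f (r / 8))^[j] (Occ (r / 64) (MAN_h f U n (Psc f n Λ))) Z ≤
        ENNReal.ofReal (C1 * (2 * d) ^ j * mass f (n + j) Z * (b + (j + 1) * (CP + 1) - Jf f (n + j) (Psc f (n + j) Λ) Z)) := by
  have hd1 : (1 : ℝ) ≤ d := by exact_mod_cast (by have := K.hd; omega : 1 ≤ d)
  have hd2 : (2 : ℝ) ≤ d := by exact_mod_cast K.hd
  have hcp := K.cp
  have hcd := K.cd
  have hc1 := K.c1
  have hMbpos : 0 < Mb := by linarith
  -- the error terms
  have herr : ∀ j ≤ N0, ∀ m : ℝ, Mb ≤ m → C1 * (CP * ((n + j : ℕ) + 1) + Λ) * m ^ (-(1 / 2) : ℝ) ≤ 1 := by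
    intro j hj m hm
    refine le_trans ?_ (hMb4 j hj)
    refine mul_le_mul_of_nonneg_left ?_ ?_
    · exact Real.rpow_le_rpow_of_nonpos hMbpos hm (by norm_num)
    · have : (0 : ℝ) ≤ ((n + j : ℕ) : ℝ) := Nat.cast_nonneg _
      have : 0 ≤ CP * (((n + j : ℕ) : ℝ) + 1) := by positivity
      have : 0 ≤ C1 := by linarith
      positivity
  have hB1 : ∀ m : ℕ, 1 ≤ CP * ((m : ℝ) + 1) + Λ := by
    intro m
    have : (0 : ℝ) ≤ (m : ℝ) := Nat.cast_nonneg _
    nlinarith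
  -- upper bounds for nearby discs
  have hub : ∀ j : ℕ, ∀ Z : ℂ → E3, Dsc (f.map '' closure U) Z → Mb ≤ mass f (n + j) Z → ∀ A, Near r A →
      Jf f (n + j) (Psc f (n + j) Λ) (fun z => mv A (Z z)) ≤ b + j * CP := by
    intro j Z hZ hm A hA
    refine MAN_UB_steps K hΛ hM0 hUB j _ (K.rad A Z hA hZ) ?_
    have := (abs_le.1 (K.dms1 (n + j) Z A hZ hA)).1
    linarith
  intro j
  induction j with
  | zero =>
    intro _ Z hZ hm
    rw [Function.iterate_zero, id_eq]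
    have hmpos : 0 < mass f n Z := by
      have : Mb ≤ mass f n Z := hm
      linarith
    have h1 := (K.rie n (Psc f n Λ) (CP * (n + 1) + Λ) Z (K.psc n Λ hΛ).1 (hB1 n) hZ (hMb2.trans hm)).2 b
      (fun A hA => by
        have := hub 0 Z hZ hm A hA
        simpa using this)
    have h2 : Occ (r / 64) (MAN_h f U n (Psc f n Λ)) Z ≤ Occ (r / 64) (fun Y => ENNReal.ofReal (eh f n (Psc f n Λ) Y)) Z :=
      MAN_occ_mono (fun Y => MAN_h_le f U n _ Y) Z
    have h3 : Occ (r / 64) (fun Y => ENNReal.ofReal (eh f n (Psc f n Λ) Y)) Z = ENNReal.ofReal (mass f n Z) *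
        (ENNReal.ofReal (mass f n Z)⁻¹ * Occ (r / 64) (fun Y => ENNReal.ofReal (eh f n (Psc f n Λ) Y)) Z) := by
      rw [← mul_assoc, ← ENNReal.ofReal_mul hmpos.le, mul_inv_cancel₀ hmpos.ne', ENNReal.ofReal_one, one_mul]
    refine h2.trans ?_
    rw [h3]
    refine (mul_le_mul_right h1 _).trans ?_
    rw [← ENNReal.ofReal_mul hmpos.le]
    refine ENNReal.ofReal_le_ofReal ?_
    have h4 := herr 0 (Nat.zero_le _) (mass f n Z) hm
    rw [Nat.add_zero] at h4
    have h5 : (CP * ((n : ℝ) + 1) + Λ) * mass f n Z ^ (-(1 / 2) : ℝ) ≤ 1 := by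
      have h6 : 0 ≤ (CP * ((n : ℝ) + 1) + Λ) * mass f n Z ^ (-(1 / 2) : ℝ) :=
        mul_nonneg (by linarith [hB1 n]) (Real.rpow_nonneg hmpos.le _)
      have h7 : (CP * ((n : ℝ) + 1) + Λ) * mass f n Z ^ (-(1 / 2) : ℝ) ≤
          C1 * ((CP * ((n : ℝ) + 1) + Λ) * mass f n Z ^ (-(1 / 2) : ℝ)) := le_mul_of_one_le_left h6 hc1
      rw [← mul_assoc] at h7
      linarith
    have h8 : b - Jf f n (Psc f n Λ) Z + (CP * ((n : ℝ) + 1) + Λ) * mass f n Z ^ (-(1 / 2) : ℝ) ≤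
        b + ((0 : ℕ) + 1) * (CP + 1) - Jf f (n + 0) (Psc f (n + 0) Λ) Z := by
      rw [Nat.add_zero, Nat.cast_zero]
      linarith
    have h9 : 0 ≤ mass f n Z * C1 := by positivity
    have h10 := mul_le_mul_of_nonneg_left h8 h9
    rw [pow_zero, mul_one, Nat.add_zero]
    rw [Nat.add_zero] at h10
    linarith
  | succ j ih =>
    intro hj Z hZ hm
    have hmpos : 0 < mass f (n + (j + 1)) Z := by linarith
    rw [Function.iterate_succ_apply']
    obtain ⟨G, hG⟩ : ∃ G, G = (stp f (r / 8))^[j] (Occ (r / 64) (MAN_h f U n (Psc f n Λ))) := ⟨_, rfl⟩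
    have ih' := ih (by omega)
    rw [← hG] at ih' ⊢
    obtain ⟨β, hβ⟩ : ∃ β : ℝ, β = b + (j + 1) * (CP + 1) + CP := ⟨_, rfl⟩
    obtain ⟨k, hk⟩ : ∃ k : ℝ, k = C1 * (2 * d) ^ (j + 1) * mass f (n + (j + 1)) Z := ⟨_, rfl⟩
    have hk0 : 0 ≤ k := by rw [hk]; positivity
    have hr := K.r0
    have hr8 : 0 < r / 8 := by linarith
    -- pointwise bound
    have hpt : ∀ A : M3, ENNReal.ofReal (rho (r / 8) A) * G (fun z => It f 1 (mv A (Z z))) ≤
        ENNReal.ofReal (rho (r / 8) A) * ENNReal.ofReal (k * (β - Jf f (n + (j + 1)) (Psc f (n + (j + 1)) Λ) (fun z => mv A (Z z)))) := by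
      intro A
      by_cases hA0 : rho (r / 8) A = 0
      · rw [hA0, ENNReal.ofReal_zero, zero_mul, zero_mul]
      · have hA : Near r A := MAN_near_mono (by linarith) (MAN_rho_supp hr8 hA0)
        have hAZ : Dsc U (fun z => mv A (Z z)) := K.rad A Z hA hZ
        obtain ⟨e1, e2, -⟩ := K.dms4 (n + j) _ hAZ
        have e3 : Dsc (f.map '' closure U) (fun z => It f 1 (mv A (Z z))) :=
          MAN_dsc_mono (image_mono subset_closure) e1
        have e3' : Dsc U (fun z => It f 1 (mv A (Z z))) := MAN_dsc_mono (MAN_img K) e1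
        have e4 := abs_le.1 (K.dms1 (n + (j + 1)) Z A hZ hA)
        have e5 : Mb ≤ mass f (n + j) (fun z => It f 1 (mv A (Z z))) := by
          rw [e2]
          have : 2 * mass f (n + j + 1) (fun z => mv A (Z z)) ≤ d * mass f (n + j + 1) (fun z => mv A (Z z)) := by
            refine mul_le_mul_of_nonneg_right hd2 ?_
            have : mass f (n + j + 1) (fun z => mv A (Z z)) = mass f (n + (j + 1)) (fun z => mv A (Z z)) := rfl
            linarith [e4.1]
          have h' : mass f (n + j + 1) (fun z => mv A (Z z)) = mass f (n + (j + 1)) (fun z => mv A (Z z)) := rfl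
          linarith [e4.1]
        have e6 : mass f (n + j) (fun z => It f 1 (mv A (Z z))) ≤ 2 * d * mass f (n + (j + 1)) Z := by
          rw [e2]
          have h' : mass f (n + j + 1) (fun z => mv A (Z z)) ≤ 2 * mass f (n + (j + 1)) Z := by
            have h'' : mass f (n + j + 1) (fun z => mv A (Z z)) = mass f (n + (j + 1)) (fun z => mv A (Z z)) := rfl
            linarith [e4.2]
          have := mul_le_mul_of_nonneg_left h' (by linarith : (0 : ℝ) ≤ d)
          linarith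
        have e7 : 0 < mass f (n + j + 1) (fun z => mv A (Z z)) := by
          have h'' : mass f (n + j + 1) (fun z => mv A (Z z)) = mass f (n + (j + 1)) (fun z => mv A (Z z)) := rfl
          linarith [e4.1]
        have e8 := MAN_J_step K (n + j) hΛ hAZ e7
        have e9 := MAN_UB_steps K hΛ hM0 hUB j _ e3' (by linarith)
        refine mul_le_mul_right ((ih' _ e3 e5).trans (ENNReal.ofReal_le_ofReal ?_)) _
        obtain ⟨X, hX⟩ : ∃ X, X = Jf f (n + j) (Psc f (n + j) Λ) (fun z => It f 1 (mv A (Z z))) := ⟨_, rfl⟩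
        obtain ⟨Y, hY⟩ : ∃ Y, Y = Jf f (n + (j + 1)) (Psc f (n + (j + 1)) Λ) (fun z => mv A (Z z)) := ⟨_, rfl⟩
        rw [← hX] at e8 e9 ⊢
        have e8' : Y ≤ X + CP := by rw [hY]; exact e8
        rw [← hY, hk, pow_succ]
        have f0 : 0 ≤ b + (j + 1) * (CP + 1) - X := by nlinarith
        have f1 : b + (j + 1) * (CP + 1) - X ≤ β - Y := by rw [hβ]; linarith
        have f2 : mass f (n + j) (fun z => It f 1 (mv A (Z z))) * (b + (j + 1) * (CP + 1) - X) ≤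
            (2 * d * mass f (n + (j + 1)) Z) * (β - Y) :=
          mul_le_mul e6 f1 f0 (by positivity)
        have f3 : 0 ≤ C1 * (2 * (d : ℝ)) ^ j := by positivity
        have f4 := mul_le_mul_of_nonneg_left f2 f3
        linarith
    have hub' : ∀ A, Near r A → Jf f (n + (j + 1)) (Psc f (n + (j + 1)) Λ) (fun z => mv A (Z z)) ≤ β := by
      intro A hA
      have h1 := hub (j + 1) Z hZ hm A hA
      rw [hβ]
      push_cast at h1
      have h2 : (0 : ℝ) ≤ (j : ℝ) := Nat.cast_nonneg _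
      linarith
    have hR0 := MAN_R0 K (K.psc (n + (j + 1)) Λ hΛ).1 (hB1 _) hZ (by linarith) (hMb2.trans hm) hk0 hub'
    change ∫⁻ A, ENNReal.ofReal (rho (r / 8) A) * G (fun z => It f 1 (mv A (Z z))) ≤ _
    refine (lintegral_mono hpt).trans (hR0.trans (ENNReal.ofReal_le_ofReal ?_))
    have h4 := herr (j + 1) hj (mass f (n + (j + 1)) Z) hm
    have h5 : β - Jf f (n + (j + 1)) (Psc f (n + (j + 1)) Λ) Z +
        C1 * (CP * (((n + (j + 1) : ℕ) : ℝ) + 1) + Λ) * mass f (n + (j + 1)) Z ^ (-(1 / 2) : ℝ) ≤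
        b + (((j + 1 : ℕ) : ℝ) + 1) * (CP + 1) - Jf f (n + (j + 1)) (Psc f (n + (j + 1)) Λ) Z := by
      rw [hβ]
      push_cast
      push_cast at h4
      linarith
    rw [← hk]
    exact mul_le_mul_of_nonneg_left h5 hk0

end

/-- counting of the drops -/
theorem MAN_count (A : ℕ → ℝ) (P E : ℝ) (hP : 1 ≤ P) (hub : ∀ n, A n ≤ P * (n + 1)) (hlb : ∀ n, -E ≤ A n)
    (hstep : ∀ n, A (n + 1) ≤ A n + P) (T : ℕ) (hT : 1 ≤ T) (ε : ℝ) (hε : 0 < ε) (L : ℕ) (S : Finset ℕ) (hS : S ⊆ Finset.range L)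
    (hbad : ∀ n ∈ S, A (n + T) + T * P / ε < A n) : (S.card : ℝ) ≤ ε * L + ε * (P * T + E) / P := by
  have h1 : ∀ (k n : ℕ), A (n + k) ≤ A n + k * P := by
    intro k n
    induction k with
    | zero => simp
    | succ k ih =>
      have := hstep (n + k)
      rw [Nat.add_assoc] at this
      push_cast
      linarith
  have hT0 : (0 : ℝ) < T := by exact_mod_cast hT
  have hP0 : 0 < P := by linarith
  -- the telescoping sum
  have h2 : ∑ n ∈ Finset.range L, (A n - A (n + T)) = ∑ n ∈ Finset.range T, A n - ∑ n ∈ Finset.range T, A (L + n) := by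
    have e1 := Finset.sum_range_add A L T
    have e2 := Finset.sum_range_add A T L
    rw [Nat.add_comm T L, e1] at e2
    rw [Finset.sum_sub_distrib]
    have e3 : ∑ n ∈ Finset.range L, A (n + T) = ∑ n ∈ Finset.range L, A (T + n) :=
      Finset.sum_congr rfl fun n _ => by rw [Nat.add_comm]
    rw [e3]
    linarith
  have h3 : ∑ n ∈ Finset.range T, A n ≤ T * (P * T) := by
    have e1 : ∑ n ∈ Finset.range T, A n ≤ ∑ _n ∈ Finset.range T, P * (T : ℝ) := by
      refine Finset.sum_le_sum fun n hn => (hub n).trans ?_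
      have : (n : ℝ) + 1 ≤ T := by exact_mod_cast Finset.mem_range.1 hn
      exact mul_le_mul_of_nonneg_left this hP0.le
    rwa [Finset.sum_const, Finset.card_range, nsmul_eq_mul] at e1
  have h4 : -(T * E) ≤ ∑ n ∈ Finset.range T, A (L + n) := by
    have e1 : ∑ _n ∈ Finset.range T, -E ≤ ∑ n ∈ Finset.range T, A (L + n) :=
      Finset.sum_le_sum fun n _ => hlb _
    rw [Finset.sum_const, Finset.card_range, nsmul_eq_mul] at e1
    linarith
  -- the lower bound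
  have h5 : (S.card : ℝ) * (T * P / ε) - L * (T * P) ≤ ∑ n ∈ Finset.range L, (A n - A (n + T)) := by
    have e0 : ∀ n ∈ Finset.range L, (if n ∈ S then T * P / ε else 0) - T * P ≤ A n - A (n + T) := by
      intro n _
      have e2 := h1 T n
      split_ifs with hn
      · have e3 := hbad n hn
        have : 0 ≤ T * P := by positivity
        linarith
      · linarith
    have e1 := Finset.sum_le_sum e0
    rw [Finset.sum_sub_distrib, Finset.sum_const, Finset.card_range, nsmul_eq_mul, ← Finset.sum_filter,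
      Finset.filter_mem_eq_inter, Finset.inter_eq_right.2 hS, Finset.sum_const, nsmul_eq_mul] at e1
    exact e1
  have h6 : (S.card : ℝ) * (T * P / ε) ≤ L * (T * P) + T * (P * T) + T * E := by linarith
  have h7 : (S.card : ℝ) * (T * P / ε) = (T * P / ε) * S.card := by ring
  rw [h7] at h6
  have h8 : (S.card : ℝ) ≤ (L * (T * P) + T * (P * T) + T * E) / (T * P / ε) := by
    rw [le_div_iff₀ (by positivity)]
    linarith
  refine h8.trans (le_of_eq ?_)
  field_simp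
  ring

open Classical in
theorem MAN (hRIE : RIE_stmt) (hPSC : PSC_stmt) (hENT : ENT_stmt) (hQRE : QRE_stmt) (hDMS : DMS_stmt) (hRAD : RAD_stmt) :
    MAN_stmt := by
  intro d f Us K hd hcore ε hε
  have hd0 : d ≠ 0 := by omega
  have hd2 : (2 : ℝ) ≤ d := by exact_mod_cast hd
  obtain ⟨hr1, -, -, hr4⟩ := hRAD
  obtain ⟨r, hr, hr100, hrad⟩ := hr1 d f (Us 0) (hcore.trap 0)
  obtain ⟨N0, 𝒱, c, CQ, h𝒱, hK𝒱, hc, hCQ, hQ⟩ := hQRE d f Us K r hd hcore hr hr100 hrad
  obtain ⟨C1, hC1, hR⟩ := hRIE d f (Us 0) r hd hcore.good hr hr100 hrad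
  obtain ⟨CP, hCP, hP⟩ := hPSC d f (Us 0) hd hcore.good
  obtain ⟨CE, hCE, hE⟩ := hENT d f (Us 0) hd hcore.good
  obtain ⟨CD, hCD, hD1, -, -, hD4⟩ := hDMS d f (Us 0) r hd hcore.good hr hr100 hrad
  have himg : f.map '' (Us 0) ⊆ Us 0 := (image_mono subset_closure).trans hcore.good.1.2.2
  -- discs of large mass
  have hbig : ∀ (n : ℕ) (M : ℝ), ∃ W : ℂ → E3, Dsc (Us 0) W ∧ M ≤ mass f n W := by
    intro n M
    obtain ⟨Z, hZ, c0, hc0, hev⟩ := hcore.charged 0
    obtain ⟨Nt, hNt⟩ := eventually_atTop.1 hev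
    have hit : ∀ k : ℕ, Dsc (Us 0) ((fun (Z : ℂ → E3) (z : ℂ) => It f 1 (Z z))^[k] Z) ∧
        ∀ m : ℕ, mass f m ((fun (Z : ℂ → E3) (z : ℂ) => It f 1 (Z z))^[k] Z) = (d : ℝ) ^ k * mass f (m + k) Z := by
      intro k
      induction k with
      | zero => exact ⟨hZ, fun m => by simp⟩
      | succ k ih =>
        rw [Function.iterate_succ_apply']
        refine ⟨MAN_dsc_mono himg (hD4 0 _ ih.1).1, fun m => ?_⟩
        rw [(hD4 m _ ih.1).2.1, ih.2 (m + 1), pow_succ, Nat.add_right_comm, Nat.add_assoc m k 1]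
        ring
    obtain ⟨k, hk⟩ := pow_unbounded_of_one_lt (M / c0) (by linarith : (1 : ℝ) < d)
    refine ⟨_, (hit (k + Nt)).1, ?_⟩
    rw [(hit (k + Nt)).2 n]
    have h1 := hNt (n + (k + Nt)) (by omega)
    have h2 : (d : ℝ) ^ k ≤ (d : ℝ) ^ (k + Nt) := pow_le_pow_right₀ (by linarith) (by omega)
    rw [div_lt_iff₀ hc0] at hk
    have h3 : (d : ℝ) ^ k * c0 ≤ (d : ℝ) ^ (k + Nt) * mass f (n + (k + Nt)) Z :=
      mul_le_mul h2 h1 hc0.le (by positivity)
    linarith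
  have KK : MAN_K f (Us 0) r CP CE CD C1 :=
    { hd := hd
      good := hcore.good
      r0 := hr
      cp := hCP
      ce := hCE
      cd := hCD
      c1 := hC1
      psc := hP
      ent := hE
      dms1 := hD1
      dms4 := hD4
      rie := hR
      rad := fun A Z hA hZ => hr4 (Us 0) Z r _ A hrad hA hZ
      big := hbig }
  -- the constants
  obtain ⟨T, hT⟩ : ∃ T : ℕ, T = N0 + 1 := ⟨_, rfl⟩
  obtain ⟨Cs, hCs⟩ : ∃ Cs : ℝ, Cs = T * CP / ε := ⟨_, rfl⟩
  have hTpos : (0 : ℝ) < T := by rw [hT]; positivity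
  have hCs0 : 0 ≤ Cs := by rw [hCs]; positivity
  obtain ⟨C', hC'⟩ : ∃ C' : ℝ, C' = C1 * (2 * d) ^ N0 * (Cs + 1 + (N0 + 1) * (CP + 1) + 1 + CP) / c := ⟨_, rfl⟩
  have hC'0 : 0 ≤ C' := by rw [hC']; positivity
  obtain ⟨C'', hC''⟩ : ∃ C'' : ℝ, C'' = ε * (CP * T + CE) / CP := ⟨_, rfl⟩
  have hC''0 : 0 < C'' := by rw [hC'']; positivity
  refine ⟨𝒱 ∩ Us 0, C' + C'', {n | MAN_Af f (Us 0) n ≤ MAN_Af f (Us 0) (n + T) + Cs}, h𝒱.inter hcore.good.1.1, ?_, by linarith, ?_, ?_⟩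
  · intro x hx
    refine ⟨hK𝒱 hx, ?_⟩
    rw [hcore.inter] at hx
    exact mem_iInter.1 hx 0
  · intro L
    have h1 := MAN_count (MAN_Af f (Us 0)) CP CE hCP (MAN_A_ub KK) (MAN_A_lb KK) (MAN_A_step KK) T (by omega) ε hε L
      ((Finset.range L).filter fun n => n ∉ {n | MAN_Af f (Us 0) n ≤ MAN_Af f (Us 0) (n + T) + Cs})
      (Finset.filter_subset _ _) (fun n hn => by
        have h2 := (Finset.mem_filter.1 hn).2
        rw [← hCs]
        exact not_le.1 h2)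
    rw [← hC''] at h1
    linarith
  · intro n hn Λ0
    have hn' : MAN_Af f (Us 0) n ≤ MAN_Af f (Us 0) (n + T) + Cs := hn
    obtain ⟨Λ1, M1, hΛ1, hM1, hUB⟩ := MAN_A_near KK n
    obtain ⟨Λ, hΛ⟩ : ∃ Λ, Λ = max Λ0 Λ1 := ⟨_, rfl⟩
    have hΛa : Λ0 ≤ Λ := by rw [hΛ]; exact le_max_left _ _
    have hΛb : Λ1 ≤ Λ := by rw [hΛ]; exact le_max_right _ _
    have hΛc : 0 ≤ Λ := hΛ1.trans hΛb
    refine ⟨Λ, hΛa, ?_⟩
    have hUB' := MAN_UB_mono KK hΛ1 hΛb hM1 le_rfl hUB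
    -- the mass threshold
    obtain ⟨B, hB⟩ : ∃ B : ℝ, B = CP * ((n + N0 : ℕ) + 1) + Λ := ⟨_, rfl⟩
    have hB0 : 0 < B := by rw [hB]; positivity
    obtain ⟨Mb, hMb⟩ : ∃ Mb : ℝ, Mb = (M1 + CD) + C1 + (2 * CD + 1) + (C1 * B) ^ 2 + CQ := ⟨_, rfl⟩
    have hsq : 0 < (C1 * B) ^ 2 := by positivity
    have hMb0 : 0 < Mb := by rw [hMb]; positivity
    have hrec := MAN_rec KK n N0 hΛc hM1 hUB' (by rw [hMb]; linarith : M1 + CD ≤ Mb) (by rw [hMb]; linarith) (by rw [hMb]; linarith)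
      (fun j hj => by
        have e1 : CP * ((n + j : ℕ) + 1) + Λ ≤ B := by
          rw [hB]
          have : ((n + j : ℕ) : ℝ) ≤ ((n + N0 : ℕ) : ℝ) := by exact_mod_cast (by omega : n + j ≤ n + N0)
          nlinarith
        have e2 : Mb ^ (-(1 / 2) : ℝ) ≤ (C1 * B)⁻¹ := by
          have e3 : ((C1 * B) ^ 2) ^ (-(1 / 2) : ℝ) = (C1 * B)⁻¹ := by
            have e5 : ((2 : ℕ) : ℝ) * (-(1 / 2)) = -1 := by norm_num
            rw [← Real.rpow_natCast (C1 * B) 2, ← Real.rpow_mul (by positivity), e5, Real.rpow_neg_one]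
          rw [← e3]
          exact Real.rpow_le_rpow_of_nonpos hsq (by rw [hMb]; linarith) (by norm_num)
        have e4 : 0 ≤ Mb ^ (-(1 / 2) : ℝ) := Real.rpow_nonneg hMb0.le _
        calc C1 * (CP * ((n + j : ℕ) + 1) + Λ) * Mb ^ (-(1 / 2) : ℝ) ≤ C1 * B * Mb ^ (-(1 / 2) : ℝ) := by
              refine mul_le_mul_of_nonneg_right (mul_le_mul_of_nonneg_left e1 (by linarith)) e4
          _ ≤ C1 * B * (C1 * B)⁻¹ := mul_le_mul_of_nonneg_left e2 (by positivity)
          _ = 1 := mul_inv_cancel₀ (by positivity)) N0 le_rfl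
    -- the starting disc
    obtain ⟨W, hW, hmW, hJW⟩ := MAN_A_disc KK (n + T) hΛc (by rw [hMb]; linarith : 1 ≤ Mb)
    have hTN : n + T = n + N0 + 1 := by omega
    rw [hTN] at hmW hJW hn'
    obtain ⟨e1, e2, -⟩ := hD4 (n + N0) W hW
    have hpos : 0 < mass f (n + N0 + 1) W := by linarith
    have e3 : Mb ≤ mass f (n + N0) (fun z => It f 1 (W z)) := by
      rw [e2]
      nlinarith
    have e4 := MAN_J_step KK (n + N0) hΛc hW hpos
    obtain ⟨Z, hZdef⟩ : ∃ Z : ℂ → E3, Z = fun z => It f 1 (W z) := ⟨_, rfl⟩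
    rw [← hZdef] at e1 e2 e3 e4
    have hmZ : 0 < mass f (n + N0) Z := by linarith
    have h1 := hrec Z (MAN_dsc_mono (image_mono subset_closure) e1) e3
    have h2 := hQ (n + N0) Z (MAN_h f (Us 0) n (Psc f n Λ)) e1 (by
        have : CQ ≤ Mb := by rw [hMb]; linarith
        linarith)
      (MAN_h_meas hcore.good n (hP n Λ hΛc).1 hd0) (fun Y a ha => MAN_h_smul hcore.good n (hP n Λ hΛc).1 Y a ha)
    -- compare
    have h3 : ∫⁻ Y in closedBall (0 : E3) 1 ∩ cone (𝒱 ∩ Us 0), ENNReal.ofReal (eh f n (Psc f n Λ) Y) ≤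
        ∫⁻ Y in closedBall (0 : E3) 1 ∩ cone 𝒱, MAN_h f (Us 0) n (Psc f n Λ) Y := by
      have hms : MeasurableSet (closedBall (0 : E3) 1 ∩ cone (𝒱 ∩ Us 0)) :=
        measurableSet_closedBall.inter (cone_open (h𝒱.inter hcore.good.1.1)).measurableSet
      have hsub : closedBall (0 : E3) 1 ∩ cone (𝒱 ∩ Us 0) ⊆ closedBall (0 : E3) 1 ∩ cone 𝒱 := by
        rintro Y ⟨hY1, hY2, hY3⟩
        exact ⟨hY1, hY2, hY3.1⟩
      refine le_trans (le_of_eq ?_) (lintegral_mono_set hsub)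
      refine setLIntegral_congr_fun hms fun Y hY => ?_
      obtain ⟨-, hY2, hY3⟩ := hY
      have hYU : Y ∈ cone (Us 0) := ⟨hY2, hY3.2⟩
      unfold MAN_h
      rw [indicator_of_mem hYU]
    refine h3.trans ?_
    have h4 : C1 * (2 * d) ^ N0 * mass f (n + N0) Z * (MAN_Af f (Us 0) n + 1 + (N0 + 1) * (CP + 1) -
        Jf f (n + N0) (Psc f (n + N0) Λ) Z) ≤ c * mass f (n + N0) Z * C' := by
      have g1 : MAN_Af f (Us 0) n + 1 + (N0 + 1) * (CP + 1) - Jf f (n + N0) (Psc f (n + N0) Λ) Z ≤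
          Cs + 1 + (N0 + 1) * (CP + 1) + 1 + CP := by linarith
      have g2 : 0 ≤ C1 * (2 * (d : ℝ)) ^ N0 * mass f (n + N0) Z := by positivity
      refine (mul_le_mul_of_nonneg_left g1 g2).trans (le_of_eq ?_)
      rw [hC']
      field_simp
    have h5 : ENNReal.ofReal (c * mass f (n + N0) Z) *
        (∫⁻ Y in closedBall (0 : E3) 1 ∩ cone 𝒱, MAN_h f (Us 0) n (Psc f n Λ) Y) ≤
        ENNReal.ofReal (c * mass f (n + N0) Z) * ENNReal.ofReal C' := by
      rw [← ENNReal.ofReal_mul (by positivity)]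
      exact h2.trans (h1.trans (ENNReal.ofReal_le_ofReal h4))
    have h6 : ENNReal.ofReal (c * mass f (n + N0) Z) ≠ 0 := by
      rw [Ne, ENNReal.ofReal_eq_zero, not_le]
      positivity
    have h7 := (ENNReal.mul_le_mul_iff_right h6 ENNReal.ofReal_ne_top).1 h5
    exact h7.trans (ENNReal.ofReal_le_ofReal (by linarith))

end Pool.Agent.P2
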