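import Pool.Agent.helper75.P2.MAN_A

set_option autoImplicit false

/-!
# Project P2, row MAN, part B: the dynamics on the cone, continuity of averages
-/

open scoped ContDiff Topology
open MeasureTheory Filter Set Metric MvPolynomial Pool.Agent.helper37.QA

namespace Pool.Agent.P2

theorem MAN_It_zero {d : ℕ} (f : Endo 2 d) (Z : E3) : It f 0 Z = Z := pmap_iter_zero f.F Z

theorem MAN_cone {d : ℕ} {f : Endo 2 d} {U : Set (PP 2)} (hU : IsTrapping f U) {Z : E3}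
    (hZ : Z ∈ cone U) (n : ℕ) : It f n Z ∈ cone U := by
  obtain ⟨h, hZU⟩ := hZ
  refine ⟨pmap_ne (iter_nd f.nondeg n) h, ?_⟩
  have := iterate_mem hU hZU n
  rwa [map_iter f n h] at this

theorem MAN_pq_pos {d : ℕ} {f : Endo 2 d} {U : Set (PP 2)} (hG : Good0 f U) {Z : E3}
    (hZ : Z ∈ cone U) (n : ℕ) : 0 < pq (It f n Z) := by
  obtain ⟨hne, hmem⟩ := MAN_cone hG.1 hZ n
  by_contra hcon
  have h0 : 0 ≤ Complex.normSq (It f n Z 0) := Complex.normSq_nonneg _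
  have h1 : 0 ≤ Complex.normSq (It f n Z 1) := Complex.normSq_nonneg _
  have h2 : Complex.normSq (It f n Z 0) + Complex.normSq (It f n Z 1) ≤ 0 := not_lt.1 hcon
  exact hG.2 _ hne (Complex.normSq_eq_zero.1 (by linarith)) (Complex.normSq_eq_zero.1 (by linarith))
    (subset_closure hmem)

theorem MAN_contDiff {m : ℕ} {n : WithTop ℕ∞} (φ : MvPolynomial (Fin m) ℂ) :
    ContDiff ℂ n (fun x : Fin m → ℂ => eval x φ) := by
  have h : (fun x : Fin m → ℂ => eval x φ) =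
      fun x => ∑ s ∈ φ.support, φ.coeff s * ∏ j, x j ^ s j := by
    funext x
    exact eval_eq' x φ
  rw [h]
  refine ContDiff.sum fun s _ => ?_
  refine contDiff_const.mul ?_
  refine contDiff_prod fun j _ => ?_
  exact (contDiff_apply ℂ ℂ j).pow _

theorem MAN_It_cd {d : ℕ} {k : WithTop ℕ∞} (f : Endo 2 d) (n : ℕ) (i : Fin 3) : ContDiff ℂ k (fun W : E3 => It f n W i) :=
  MAN_contDiff (iter f.F n i)

theorem MAN_It_cont {d : ℕ} (f : Endo 2 d) (n : ℕ) : Continuous (It f n) :=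
  pmap_cont _

theorem MAN_fd_cont {d : ℕ} (f : Endo 2 d) (n : ℕ) (i : Fin 3) :
    Continuous (fun p : E3 × E3 => fderiv ℂ (fun W => It f n W i) p.1 p.2) :=
  (((MAN_It_cd (k := 1) f n i).continuous_fderiv (by norm_num)).comp continuous_fst).clm_apply continuous_snd

theorem MAN_cc_cont {d : ℕ} (f : Endo 2 d) (n : ℕ) : Continuous (fun p : E3 × E3 => cc f n p.1 p.2) := by
  unfold cc
  have h : ∀ i : Fin 3, Continuous (fun p : E3 × E3 => It f n p.1 i) := fun i =>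
    (continuous_apply i).comp ((MAN_It_cont f n).comp continuous_fst)
  exact ((h 1).mul (MAN_fd_cont f n 0)).sub ((h 0).mul (MAN_fd_cont f n 1))

theorem MAN_pq_cont {d : ℕ} (f : Endo 2 d) (n : ℕ) : Continuous (fun Z : E3 => pq (It f n Z)) := by
  unfold pq
  have h : ∀ i : Fin 3, Continuous (fun p : E3 => It f n p i) := fun i =>
    (continuous_apply i).comp (MAN_It_cont f n)
  exact (Complex.continuous_normSq.comp (h 0)).add (Complex.continuous_normSq.comp (h 1))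

theorem MAN_mv_cont : Continuous (fun p : M3 × E3 => mv p.1 p.2) := by
  unfold mv
  refine continuous_pi fun i => ?_
  refine continuous_finsetSum _ fun j _ => ?_
  fun_prop

theorem MAN_mv_one (Z : E3) : mv one3 Z = Z := by
  funext i
  unfold mv one3
  simp

theorem MAN_near_one {r : ℝ} (hr : 0 < r) : Near r one3 := by
  intro i j
  simpa using hr

/-- the density along a disc in terms of the covector -/
theorem MAN_tau {d : ℕ} (f : Endo 2 d) (N : ℕ) (Z : ℂ → E3) (z : ℂ) (hZ : DifferentiableAt ℂ Z z) :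
    tau f N Z z = (1 / 2) * Complex.normSq (cc f N (Z z) (deriv Z z)) / pq (It f N (Z z)) ^ 2 / (d : ℝ) ^ N := by
  have h : ∀ i : Fin 3, deriv (fun z => It f N (Z z) i) z = fderiv ℂ (fun W => It f N W i) (Z z) (deriv Z z) := by
    intro i
    have h1 : HasDerivAt (fun z => It f N (Z z) i) (fderiv ℂ (fun W => It f N W i) (Z z) (deriv Z z)) z := by
      have h2 : HasFDerivAt (fun W => It f N W i) (fderiv ℂ (fun W => It f N W i) (Z z)) (Z z) :=
        ((MAN_It_cd (k := 1) f N i).differentiable (by norm_num) (Z z)).hasFDerivAt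
      exact h2.comp_hasDerivAt z hZ.hasDerivAt
    exact h1.deriv
  unfold tau cc
  rw [h 0, h 1]

theorem MAN_mv_deriv (A : M3) (Z : ℂ → E3) (z : ℂ) (hZ : DifferentiableAt ℂ Z z) :
    HasDerivAt (fun z => mv A (Z z)) (mv A (deriv Z z)) z := by
  unfold mv
  rw [hasDerivAt_pi]
  intro i
  refine HasDerivAt.fun_sum fun j _ => ?_
  exact ((hasDerivAt_pi.1 hZ.hasDerivAt) j).const_mul (A i j)

theorem MAN_deriv_cont {Z : ℂ → E3} (hZ : DifferentiableOn ℂ Z (ball 0 1)) : ContinuousOn (deriv Z) (ball 0 1) :=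
  ((hZ.contDiffOn (n := 2) isOpen_ball).continuousOn_deriv_of_isOpen isOpen_ball (by norm_num))

theorem MAN_eta_cont : Continuous eta := by
  unfold eta
  exact Real.smoothTransition.continuous.comp (by fun_prop)

theorem MAN_eta_zero {z : ℂ} (hz : 5 / 8 ≤ Complex.normSq z) : eta z = 0 :=
  Real.smoothTransition.zero_of_nonpos (by linarith)

theorem MAN_eta_nonneg (z : ℂ) : 0 ≤ eta z := Real.smoothTransition.nonneg _

theorem MAN_tau_nonneg {d : ℕ} (f : Endo 2 d) (N : ℕ) (Z : ℂ → E3) (z : ℂ) : 0 ≤ tau f N Z z := by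
  unfold tau
  have := Complex.normSq_nonneg (It f N (Z z) 1 * deriv (fun z => It f N (Z z) 0) z - It f N (Z z) 0 * deriv (fun z => It f N (Z z) 1) z)
  positivity

/-- the integrand -/
noncomputable def MAN_F {d : ℕ} (f : Endo 2 d) (N : ℕ) (Ψ : E3 → ℝ) (Z : ℂ → E3) (q : M3 × ℂ) : ℝ :=
  eta q.2 ^ 2 * (Ψ (mv q.1 (Z q.2)) * tau f N (fun z => mv q.1 (Z z)) q.2)

theorem MAN_F_eq {d : ℕ} (f : Endo 2 d) (N : ℕ) (Ψ : E3 → ℝ) (Z : ℂ → E3) (q : M3 × ℂ)
    (hd : DifferentiableAt ℂ Z q.2) : MAN_F f N Ψ Z q = eta q.2 ^ 2 * (Ψ (mv q.1 (Z q.2)) *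
      ((1 / 2) * Complex.normSq (cc f N (mv q.1 (Z q.2)) (mv q.1 (deriv Z q.2))) /
          pq (It f N (mv q.1 (Z q.2))) ^ 2 / (d : ℝ) ^ N)) := by
  unfold MAN_F
  rw [MAN_tau f N (fun z => mv q.1 (Z z)) q.2 (MAN_mv_deriv q.1 Z q.2 hd).differentiableAt,
    (MAN_mv_deriv q.1 Z q.2 hd).deriv]

attribute [local irreducible] mv cc It tau

theorem MAN_F_on {d : ℕ} {f : Endo 2 d} {U : Set (PP 2)} (hG : Good0 f U) (N : ℕ) (Ψ : E3 → ℝ)
    (hΨ : ContinuousOn Ψ (cone U)) (Z : ℂ → E3) (hZ : DifferentiableOn ℂ Z (ball 0 1)) (S : Set M3)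
    (hS : ∀ A ∈ S, ∀ z ∈ ball (0 : ℂ) 1, mv A (Z z) ∈ cone U) :
    ContinuousOn (MAN_F f N Ψ Z) (S ×ˢ ball 0 1) := by
  have hZ0 : ContinuousOn (fun q : M3 × ℂ => (q.1, Z q.2)) (S ×ˢ ball 0 1) :=
    continuousOn_fst.prodMk (hZ.continuousOn.comp continuousOn_snd fun q hq => hq.2)
  have hZ0' : ContinuousOn (fun q : M3 × ℂ => (q.1, deriv Z q.2)) (S ×ˢ ball 0 1) :=
    continuousOn_fst.prodMk ((MAN_deriv_cont hZ).comp continuousOn_snd fun q hq => hq.2)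
  have hZc : ContinuousOn (fun q : M3 × ℂ => mv q.1 (Z q.2)) (S ×ˢ ball 0 1) :=
    MAN_mv_cont.comp_continuousOn hZ0
  have hZ'c : ContinuousOn (fun q : M3 × ℂ => mv q.1 (deriv Z q.2)) (S ×ˢ ball 0 1) :=
    MAN_mv_cont.comp_continuousOn hZ0'
  have hη : ContinuousOn (fun q : M3 × ℂ => eta q.2 ^ 2) (S ×ˢ ball 0 1) :=
    ((MAN_eta_cont.comp continuous_snd).pow 2).continuousOn
  have hΨc : ContinuousOn (fun q : M3 × ℂ => Ψ (mv q.1 (Z q.2))) (S ×ˢ ball 0 1) :=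
    hΨ.comp hZc fun q hq => hS q.1 hq.1 q.2 hq.2
  have hcc : ContinuousOn (fun q : M3 × ℂ => cc f N (mv q.1 (Z q.2)) (mv q.1 (deriv Z q.2))) (S ×ˢ ball 0 1) :=
    (MAN_cc_cont f N).comp_continuousOn (hZc.prodMk hZ'c)
  have hcn : ContinuousOn (fun q : M3 × ℂ => (1 / 2) * Complex.normSq (cc f N (mv q.1 (Z q.2)) (mv q.1 (deriv Z q.2))))
      (S ×ˢ ball 0 1) := continuousOn_const.mul (Complex.continuous_normSq.comp_continuousOn hcc)
  have hpq : ContinuousOn (fun q : M3 × ℂ => pq (It f N (mv q.1 (Z q.2))) ^ 2) (S ×ˢ ball 0 1) :=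
    ((MAN_pq_cont f N).comp_continuousOn hZc).pow 2
  have hne : ∀ q ∈ S ×ˢ ball (0 : ℂ) 1, pq (It f N (mv q.1 (Z q.2))) ^ 2 ≠ 0 := fun q hq =>
    pow_ne_zero 2 (MAN_pq_pos hG (hS q.1 hq.1 q.2 hq.2) N).ne'
  have hdiv := (hcn.div hpq hne).div_const ((d : ℝ) ^ N)
  have hall := hη.mul (hΨc.mul hdiv)
  refine hall.congr fun q hq => ?_
  exact MAN_F_eq f N Ψ Z q (hZ.differentiableAt (isOpen_ball.mem_nhds hq.2))

/-- joint continuity of the integrand -/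
theorem MAN_joint {d : ℕ} {f : Endo 2 d} {U : Set (PP 2)} (hG : Good0 f U) (N : ℕ) (Ψ : E3 → ℝ)
    (hΨ : ContinuousOn Ψ (cone U)) (Z : ℂ → E3) (hZ : DifferentiableOn ℂ Z (ball 0 1)) (S : Set M3)
    (hS : ∀ A ∈ S, ∀ z ∈ ball (0 : ℂ) 1, mv A (Z z) ∈ cone U) :
    ContinuousOn (MAN_F f N Ψ Z) (S ×ˢ univ) := by
  intro p hp
  by_cases hz : p.2 ∈ ball (0 : ℂ) 1
  · have h2 := MAN_F_on hG N Ψ hΨ Z hZ S hS p ⟨hp.1, hz⟩
    refine h2.mono_of_mem_nhdsWithin ?_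
    rw [mem_nhdsWithin]
    refine ⟨univ ×ˢ ball 0 1, isOpen_univ.prod isOpen_ball, ⟨mem_univ _, hz⟩, ?_⟩
    rintro ⟨a, b⟩ ⟨⟨-, hb⟩, ha, -⟩
    exact ⟨ha, hb⟩
  · -- the integrand vanishes near p
    have hn : 5 / 8 < Complex.normSq p.2 := by
      rw [mem_ball_zero_iff, not_lt] at hz
      rw [Complex.normSq_eq_norm_sq]
      have : (1 : ℝ) ≤ ‖p.2‖ ^ 2 := one_le_pow₀ hz
      linarith
    have hopen : IsOpen {q : M3 × ℂ | 5 / 8 < Complex.normSq q.2} :=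
      isOpen_lt continuous_const (Complex.continuous_normSq.comp continuous_snd)
    have hev : (MAN_F f N Ψ Z) =ᶠ[𝓝 p] fun _ => 0 := by
      filter_upwards [hopen.mem_nhds hn] with q hq
      unfold MAN_F
      rw [MAN_eta_zero (le_of_lt hq)]
      ring
    exact (continuousAt_const.congr hev.symm).continuousWithinAt

theorem MAN_int_cont {d : ℕ} {f : Endo 2 d} {U : Set (PP 2)} (hG : Good0 f U) (N : ℕ) (Ψ : E3 → ℝ)
    (hΨ : ContinuousOn Ψ (cone U)) (Z : ℂ → E3) (hZ : DifferentiableOn ℂ Z (ball 0 1)) (S : Set M3)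
    (hS : ∀ A ∈ S, ∀ z ∈ ball (0 : ℂ) 1, mv A (Z z) ∈ cone U) :
    ContinuousOn (fun A : M3 => ∫ z, eta z ^ 2 * (Ψ (mv A (Z z)) * tau f N (fun z => mv A (Z z)) z)) S := by
  have hj : ContinuousOn (Function.uncurry fun (A : M3) (z : ℂ) => MAN_F f N Ψ Z (A, z)) (S ×ˢ univ) :=
    MAN_joint hG N Ψ hΨ Z hZ S hS
  refine continuousOn_integral_of_compact_support (isCompact_closedBall (0 : ℂ) 1) hj ?_
  intro A z _ hz
  rw [mem_closedBall_zero_iff, not_le] at hz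
  have hn : 5 / 8 ≤ Complex.normSq z := by
    rw [Complex.normSq_eq_norm_sq]
    have : (1 : ℝ) ≤ ‖z‖ ^ 2 := one_le_pow₀ hz.le
    linarith
  rw [MAN_eta_zero hn]
  ring

theorem MAN_integrable {d : ℕ} {f : Endo 2 d} {U : Set (PP 2)} (hG : Good0 f U) (N : ℕ) (Ψ : E3 → ℝ)
    (hΨ : ContinuousOn Ψ (cone U)) (Z : ℂ → E3) (hZ : Dsc U Z) :
    Integrable (fun z => eta z ^ 2 * (Ψ (Z z) * tau f N Z z)) := by
  have h1 := MAN_joint hG N Ψ hΨ Z hZ.1 {one3} (by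
    intro A hA z hz
    rw [mem_singleton_iff.1 hA, MAN_mv_one]
    exact hZ.2 z hz)
  have h2 : Continuous (fun z => eta z ^ 2 * (Ψ (Z z) * tau f N Z z)) := by
    rw [← continuousOn_univ]
    have h3 : ContinuousOn (fun z : ℂ => ((one3 : M3), z)) univ := (by fun_prop : Continuous fun z : ℂ => ((one3 : M3), z)).continuousOn
    have h4 := h1.comp h3 (fun z _ => ⟨rfl, mem_univ _⟩)
    have h5 : (fun z => mv one3 (Z z)) = Z := funext fun z => MAN_mv_one (Z z)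
    refine h4.congr fun z _ => ?_
    change eta z ^ 2 * (Ψ (Z z) * tau f N Z z) = eta z ^ 2 * (Ψ (mv one3 (Z z)) * tau f N (fun z => mv one3 (Z z)) z)
    rw [h5, MAN_mv_one]
  refine h2.integrable_of_hasCompactSupport ?_
  refine HasCompactSupport.intro (isCompact_closedBall (0 : ℂ) 1) fun z hz => ?_
  rw [mem_closedBall_zero_iff, not_le] at hz
  have hn : 5 / 8 ≤ Complex.normSq z := by
    rw [Complex.normSq_eq_norm_sq]
    have : (1 : ℝ) ≤ ‖z‖ ^ 2 := one_le_pow₀ hz.le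
    linarith
  rw [MAN_eta_zero hn]
  ring

theorem MAN_mass_one {d : ℕ} (f : Endo 2 d) (N : ℕ) (Z : ℂ → E3) :
    mass f N Z = ∫ z, eta z ^ 2 * ((fun _ : E3 => (1 : ℝ)) (Z z) * tau f N Z z) := by
  unfold mass
  simp

theorem MAN_mass_cont {d : ℕ} {f : Endo 2 d} {U : Set (PP 2)} (hG : Good0 f U) (N : ℕ)
    (Z : ℂ → E3) (hZ : DifferentiableOn ℂ Z (ball 0 1)) (S : Set M3)
    (hS : ∀ A ∈ S, ∀ z ∈ ball (0 : ℂ) 1, mv A (Z z) ∈ cone U) :
    ContinuousOn (fun A : M3 => mass f N (fun z => mv A (Z z))) S := by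
  have h := MAN_int_cont hG N (fun _ => (1 : ℝ)) continuousOn_const Z hZ S hS
  refine h.congr fun A _ => ?_
  exact MAN_mass_one f N _

theorem MAN_mass_integrable {d : ℕ} {f : Endo 2 d} {U : Set (PP 2)} (hG : Good0 f U) (N : ℕ)
    (Z : ℂ → E3) (hZ : Dsc U Z) : Integrable (fun z => eta z ^ 2 * tau f N Z z) := by
  have h := MAN_integrable hG N (fun _ => (1 : ℝ)) continuousOn_const Z hZ
  simpa using h

theorem MAN_J_mono {d : ℕ} {f : Endo 2 d} {U : Set (PP 2)} (hG : Good0 f U) (N : ℕ) (Ψ Ψ' : E3 → ℝ) (c : ℝ)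
    (hΨ : ContinuousOn Ψ (cone U)) (hΨ' : ContinuousOn Ψ' (cone U)) (h : ∀ Z ∈ cone U, Ψ Z ≤ Ψ' Z + c) (Z : ℂ → E3) (hZ : Dsc U Z)
    (hm : 0 < mass f N Z) : Jf f N Ψ Z ≤ Jf f N Ψ' Z + c := by
  unfold Jf
  rw [div_add' _ _ _ hm.ne', div_le_div_iff_of_pos_right hm]
  have h1 := MAN_integrable hG N Ψ hΨ Z hZ
  have h2 := MAN_integrable hG N Ψ' hΨ' Z hZ
  have h3 := MAN_mass_integrable hG N Z hZ
  have h4 : (∫ z, eta z ^ 2 * (Ψ' (Z z) * tau f N Z z)) + c * mass f N Z =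
      ∫ z, (eta z ^ 2 * (Ψ' (Z z) * tau f N Z z) + c * (eta z ^ 2 * tau f N Z z)) := by
    rw [integral_add h2 (h3.const_mul c), integral_const_mul]
    rfl
  rw [h4]
  refine integral_mono h1 (h2.add (h3.const_mul c)) fun z => ?_
  change eta z ^ 2 * (Ψ (Z z) * tau f N Z z) ≤ eta z ^ 2 * (Ψ' (Z z) * tau f N Z z) + c * (eta z ^ 2 * tau f N Z z)
  by_cases hz : z ∈ ball (0 : ℂ) 1
  · have h5 := h (Z z) (hZ.2 z hz)
    have h6 : 0 ≤ eta z ^ 2 * tau f N Z z := mul_nonneg (sq_nonneg _) (MAN_tau_nonneg f N Z z)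
    have h7 := mul_le_mul_of_nonneg_right h5 h6
    calc eta z ^ 2 * (Ψ (Z z) * tau f N Z z) = Ψ (Z z) * (eta z ^ 2 * tau f N Z z) := by ring
      _ ≤ (Ψ' (Z z) + c) * (eta z ^ 2 * tau f N Z z) := h7
      _ = _ := by ring
  · have hn : 5 / 8 ≤ Complex.normSq z := by
      rw [mem_ball_zero_iff, not_lt] at hz
      rw [Complex.normSq_eq_norm_sq]
      have : (1 : ℝ) ≤ ‖z‖ ^ 2 := one_le_pow₀ hz
      linarith
    rw [MAN_eta_zero hn]
    simp

theorem MAN_J_const {d : ℕ} (f : Endo 2 d) (N : ℕ) (c : ℝ) (Z : ℂ → E3)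
    (hm : 0 < mass f N Z) : Jf f N (fun _ => c) Z = c := by
  unfold Jf
  have : (∫ z, eta z ^ 2 * (c * tau f N Z z)) = c * mass f N Z := by
    unfold mass
    rw [← integral_const_mul]
    refine integral_congr_ae (Eventually.of_forall fun z => ?_)
    change eta z ^ 2 * (c * tau f N Z z) = c * (eta z ^ 2 * tau f N Z z)
    ring
  rw [this, mul_div_assoc, div_self hm.ne', mul_one]

end Pool.Agent.P2
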