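import Pool.Agent.helper15.P2.SpecA2
import Pool.Agent.helper75.P2.MAN_B

/-! Row p2:AMB (project P2, MP_063734_an) -/

set_option autoImplicit false

open scoped ContDiff Topology
open MeasureTheory Filter Set Metric MvPolynomial Pool.Agent.helper37.QA

namespace Pool.Agent.P2A

open Pool.Agent.P2

theorem AMB_adm_mono {d : ℕ} {f : Endo 2 d} {U : Set (PP 2)} {N : ℕ} {Ψ : E3 → ℝ} {B B' : ℝ} (h : Adm f U N Ψ B)
    (hB : B ≤ B') : Adm f U N Ψ B' :=
  ⟨h.1, fun Z hZ => (h.2.1 Z hZ).trans hB, h.2.2.1, h.2.2.2⟩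

theorem AMB (hDMS : DMS_stmt) (hRAD : RAD_stmt) (hAPS : APS_stmt) (hALV : ALV_stmt) (hAMA : AMA_stmt) : AMB_stmt := by
  intro d f Us K hd hcore
  obtain ⟨r, hr, hr100, hrad⟩ := hRAD.1 d f (Us 0) (hcore.trap 0)
  obtain ⟨CD, hCD, -, hD2, -, -⟩ := hDMS d f (Us 0) r hd hcore.good hr hr100 hrad
  obtain ⟨CA, hCA, hA1, -, hA3⟩ := hAPS d f (Us 0) hd hcore.good
  obtain ⟨CL, hCL, hL⟩ := hALV d f (Us 0) hd hcore.good
  obtain ⟨N0, 𝒱, C, h𝒱, hK, hU, hC, hM⟩ := hAMA d f Us K hd hcore
  refine ⟨𝒱, C * (1 + CA + (N0 + 1) * (CA + CL)), h𝒱, hK, hU, by positivity, fun n N hn => ?_⟩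
  refine hM N (fun j => psn f (n + j) (N + j)) (CA * ((n : ℝ) + N0 + 2)) CA ((N0 + 1) * (CA + CL)) (by linarith)
    (by positivity) (fun j hj => ?_) (fun j _ Z hZ => ?_) (fun M => ?_)
  · refine AMB_adm_mono (hA3 (n + j) (N + j) (by omega)).1 ?_
    refine mul_le_mul_of_nonneg_left ?_ (by linarith)
    have : (j : ℝ) ≤ N0 + 1 := by exact_mod_cast hj
    push_cast
    linarith
  · exact (hA3 (n + j) (N + j) (by omega)).2 Z hZ
  · refine ⟨M + CD + CL + 1 + |M|, fun Z hZ hm => ⟨Z, hZ, ?_, ?_⟩⟩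
    · have h1 := (abs_le.1 (hD2 N (N + N0 + 1) Z hZ)).2
      have h2 := abs_nonneg M
      linarith
    · have hmass : ∀ k : ℕ, CL ≤ mass f (N + k) Z ∧ 0 < mass f (N + k) Z := by
        intro k
        have h1 := (abs_le.1 (hD2 N (N + k) Z hZ)).2
        have h2 := neg_abs_le M
        constructor <;> linarith
      have key : ∀ k : ℕ, Jf f N (psn f n N) Z ≤ Jf f (N + k) (psn f (n + k) (N + k)) Z + k * (CA + CL) := by
        intro k
        induction k with
        | zero => simp
        | succ k ih =>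
          have h1 := hL (n + k) (N + k) Z (by omega) hZ (hmass k).1
          have h2 := MAN_J_mono hcore.good (N + (k + 1)) (psn f (n + k) (N + k + 1)) (psn f (n + (k + 1)) (N + (k + 1))) CA
            ((hA3 (n + k) (N + k + 1) (by omega)).1.1.continuousOn) ((hA3 (n + (k + 1)) (N + (k + 1)) (by omega)).1.1.continuousOn)
            (fun Y hY => by
              have e1 : psn f (n + (k + 1)) (N + (k + 1)) Y = psn f (n + k) (N + k + 1) Y + psj f (n + k) (N + k + 1) Y := by
                unfold psn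
                rw [← Nat.add_assoc, Finset.sum_range_succ]
                rfl
              have e2 := (abs_le.1 ((hA1 (n + k) (N + k + 1) (by omega)).2.1 Y hY)).1
              rw [e1]
              linarith) Z hZ (hmass (k + 1)).2
          push_cast
          have h3 : Jf f (N + k + 1) (psn f (n + k) (N + k + 1)) Z = Jf f (N + (k + 1)) (psn f (n + k) (N + k + 1)) Z := rfl
          linarith
      have := key (N0 + 1)
      push_cast at this
      exact this

end Pool.Agent.P2A
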