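import Pool.Agent.helper37.P2.SpecB
import Pool.Agent.helper1.P2.KER

set_option autoImplicit false

/-!
# Project P2, row MAN, part A: the density, continuity, homogeneity
-/

open scoped ContDiff Topology
open MeasureTheory Filter Set Metric MvPolynomial Pool.Agent.helper37.QA

namespace Pool.Agent.P2

theorem MAN_bmp_cont : Continuous bmp := by
  unfold bmp
  exact Real.smoothTransition.continuous.comp (by fun_prop)

theorem MAN_phr_cont (r : ℝ) : Continuous (phr r) := by
  unfold phr
  exact continuous_const.mul (MAN_bmp_cont.comp (by fun_prop))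

theorem MAN_phr_nonneg (r : ℝ) (s : ℂ) : 0 ≤ phr r s := by
  unfold phr
  have h1 : 0 ≤ bmp ((r : ℂ)⁻¹ * s) := Real.smoothTransition.nonneg _
  have h2 := KER_cpos
  positivity

theorem MAN_phr_supp {r : ℝ} (hr : 0 < r) {s : ℂ} (h : phr r s ≠ 0) : ‖s‖ < r := by
  by_contra hcon
  push Not at hcon
  apply h
  unfold phr bmp
  have h1 : Complex.normSq ((r : ℂ)⁻¹ * s) = Complex.normSq s / r ^ 2 := by
    rw [Complex.normSq_mul, Complex.normSq_inv, Complex.normSq_ofReal]
    ring
  have h2 : 1 ≤ Complex.normSq s / r ^ 2 := by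
    rw [Complex.normSq_eq_norm_sq, le_div_iff₀ (by positivity)]
    nlinarith
  rw [h1, Real.smoothTransition.zero_of_nonpos (by linarith), mul_zero]

theorem MAN_phr_int {r : ℝ} (hr : 0 < r) : ∫ s, phr r s = 1 := by
  unfold phr
  rw [integral_const_mul]
  have h1 : ∫ s : ℂ, bmp ((r : ℂ)⁻¹ * s) = r ^ 2 * ∫ t, bmp t := by
    have h2 := Measure.integral_comp_inv_smul_of_nonneg (volume : Measure ℂ) bmp hr.le
    rw [Complex.finrank_real_complex] at h2
    simp only [smul_eq_mul] at h2
    rw [← h2]
    refine integral_congr_ae (Eventually.of_forall fun s => ?_)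
    simp only [Complex.real_smul]
    push_cast
    rfl
  rw [h1]
  have h3 := KER_cpos.ne'
  field_simp

theorem MAN_rho_cont (r : ℝ) : Continuous (rho r) := by
  unfold rho
  refine continuous_finsetProd _ fun i _ => continuous_finsetProd _ fun j _ => ?_
  exact (MAN_phr_cont r).comp (by fun_prop)

theorem MAN_rho_nonneg (r : ℝ) (A : M3) : 0 ≤ rho r A :=
  Finset.prod_nonneg fun i _ => Finset.prod_nonneg fun j _ => MAN_phr_nonneg r _

theorem MAN_rho_supp {r : ℝ} (hr : 0 < r) {A : M3} (h : rho r A ≠ 0) : Near r A := by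
  intro i j
  apply MAN_phr_supp hr
  intro h1
  apply h
  unfold rho
  exact Finset.prod_eq_zero (Finset.mem_univ i) (Finset.prod_eq_zero (Finset.mem_univ j) h1)

theorem MAN_phr_integrable {r : ℝ} (hr : 0 < r) : Integrable (phr r) := by
  by_contra hcon
  have h1 := MAN_phr_int hr
  rw [integral_undef hcon] at h1
  exact zero_ne_one h1

theorem MAN_rho_int {r : ℝ} (hr : 0 < r) : ∫ A, rho r A = 1 := by
  unfold rho
  have h1 := integral_fintype_prod_volume_eq_prod (ι := Fin 3) (E := fun _ => Fin 3 → ℂ)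
    (fun i (v : Fin 3 → ℂ) => ∏ j, phr r (v j - one3 i j))
  rw [h1]
  refine Finset.prod_eq_one fun i _ => ?_
  have h2 := integral_fintype_prod_volume_eq_prod (ι := Fin 3) (E := fun _ => ℂ)
    (fun j (v : ℂ) => phr r (v - one3 i j))
  rw [h2]
  refine Finset.prod_eq_one fun j _ => ?_
  rw [integral_sub_right_eq_self (phr r) (one3 i j)]
  exact MAN_phr_int hr

theorem MAN_rho_integrable {r : ℝ} (hr : 0 < r) : Integrable (rho r) := by
  by_contra hcon
  have h1 := MAN_rho_int hr
  rw [integral_undef hcon] at h1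
  exact zero_ne_one h1

theorem MAN_near_open (r : ℝ) : IsOpen {A : M3 | Near r A} := by
  have : {A : M3 | Near r A} = ⋂ i, ⋂ j, {A : M3 | ‖A i j - one3 i j‖ < r} := by
    ext A
    simp only [Near, Set.mem_setOf_eq, Set.mem_iInter]
  rw [this]
  refine isOpen_iInter_of_finite fun i => isOpen_iInter_of_finite fun j => ?_
  exact isOpen_lt (by fun_prop) continuous_const

theorem MAN_near_mono {r r' : ℝ} (h : r ≤ r') {A : M3} (hA : Near r A) : Near r' A :=
  fun i j => (hA i j).trans_le h

end Pool.Agent.P2
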